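import Mathlib

/-! Two-coloured labelled binary trees: homogeneous subtrees. -/

namespace Pool.Agent.H526R2.Delta

/-- Binary trees with labelled internal nodes. -/
inductive Tree (α : Type) where
  | leaf : Tree α
  | node : α → Tree α → Tree α → Tree α

namespace Tree

variable {α : Type}

/-- number of leaves -/
def size : Tree α → ℕ
  | leaf => 1
  | node _ l r => size l + size r

/-- Strahler number: depth of the largest embedded complete binary tree -/
def rk : Tree α → ℕ
  | leaf => 0
  | node _ l r => max (max (rk l) (rk r)) (1 + min (rk l) (rk r))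

/-- height -/
def ht : Tree α → ℕ
  | leaf => 0
  | node _ l r => 1 + max (ht l) (ht r)

/-- labels -/
def lab : Tree α → Set α
  | leaf => ∅
  | node a l r => {w | w = a ∨ w ∈ lab l ∨ w ∈ lab r}

/-- subtree spanned by some of the leaves -/
inductive Sub : Tree α → Tree α → Prop
  | leaf (t : Tree α) : Sub leaf t
  | left {s l : Tree α} (a : α) (r : Tree α) : Sub s l → Sub s (node a l r)
  | right {s r : Tree α} (a : α) (l : Tree α) : Sub s r → Sub s (node a l r)
  | node {s s' l r : Tree α} (a : α) : Sub s l → Sub s' r → Sub (node a s s') (node a l r)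

theorem Sub.refl (t : Tree α) : Sub t t := by
  induction t with
  | leaf => exact Sub.leaf _
  | node a l r ihl ihr => exact Sub.node a ihl ihr

theorem Sub.trans {s t u : Tree α} (h1 : Sub s t) (h2 : Sub t u) : Sub s u := by
  induction h2 generalizing s with
  | leaf t => cases h1; exact Sub.leaf _
  | left a r _ ih => exact Sub.left a r (ih h1)
  | right a l _ ih => exact Sub.right a l (ih h1)
  | node a _ _ ih1 ih2 =>
    cases h1 with
    | leaf => exact Sub.leaf _
    | left _ _ h => exact Sub.left _ _ (ih1 h)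
    | right _ _ h => exact Sub.right _ _ (ih2 h)
    | node _ h h' => exact Sub.node _ (ih1 h) (ih2 h')

theorem one_le_size (t : Tree α) : 1 ≤ size t := by
  induction t with
  | leaf => simp [size]
  | node a l r ihl ihr => simp only [size]; omega

theorem size_le_of_sub {s t : Tree α} (h : Sub s t) : size s ≤ size t := by
  induction h with
  | leaf t => simpa [size] using one_le_size t
  | left a r _ ih => simp only [size]; omega
  | right a l _ ih => simp only [size]; omega
  | node a _ _ ih1 ih2 => simp only [size]; omega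

theorem lab_of_sub {s t : Tree α} (h : Sub s t) : lab s ⊆ lab t := by
  induction h with
  | leaf t => intro w hw; exact absurd hw (by simp [lab])
  | left a r _ ih => intro w hw; exact Or.inr (Or.inl (ih hw))
  | right a l _ ih => intro w hw; exact Or.inr (Or.inr (ih hw))
  | node a _ _ ih1 ih2 =>
    intro w hw
    rcases hw with hw | hw | hw
    · exact Or.inl hw
    · exact Or.inr (Or.inl (ih1 hw))
    · exact Or.inr (Or.inr (ih2 hw))

/-- homogeneous trees -/
def Hom (φ : α → α → Bool) (c : Bool) : Tree α → Prop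
  | leaf => True
  | node a l r => Hom φ c l ∧ Hom φ c r ∧ (∀ w ∈ lab l, φ w a = c) ∧ (∀ w ∈ lab r, φ a w = c)

theorem split_rk (p : α → Prop) (t : Tree α) : ∃ t1 t2, Sub t1 t ∧ Sub t2 t ∧
    (∀ w ∈ lab t1, p w) ∧ (∀ w ∈ lab t2, ¬ p w) ∧ rk t ≤ rk t1 + rk t2 := by
  induction t with
  | leaf => exact ⟨leaf, leaf, Sub.leaf _, Sub.leaf _, by simp [lab], by simp [lab], by simp [rk]⟩
  | node a l r ihl ihr =>
    obtain ⟨l1, l2, hl1, hl2, pl1, pl2, hl⟩ := ihl
    obtain ⟨r1, r2, hr1, hr2, pr1, pr2, hr⟩ := ihr
    by_cases h1 : rk (node a l r) ≤ rk l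
    · exact ⟨l1, l2, Sub.left _ _ hl1, Sub.left _ _ hl2, pl1, pl2, h1.trans hl⟩
    by_cases h2 : rk (node a l r) ≤ rk r
    · exact ⟨r1, r2, Sub.right _ _ hr1, Sub.right _ _ hr2, pr1, pr2, h2.trans hr⟩
    have h3 : rk (node a l r) = 1 + min (rk l) (rk r) := by
      simp only [rk] at h1 h2 ⊢
      omega
    by_cases ha : p a
    · have q : ∀ w ∈ lab (node a l1 r1), p w := by
        rintro w (hw | hw | hw)
        · rw [hw]; exact ha
        · exact pl1 w hw
        · exact pr1 w hw
      rcases le_total (rk l1) (rk r1) with h4 | h4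
      · refine ⟨node a l1 r1, l2, Sub.node a hl1 hr1, Sub.left _ _ hl2, q, pl2, ?_⟩
        rw [h3]; simp only [rk]; omega
      · refine ⟨node a l1 r1, r2, Sub.node a hl1 hr1, Sub.right _ _ hr2, q, pr2, ?_⟩
        rw [h3]; simp only [rk]; omega
    · have q : ∀ w ∈ lab (node a l2 r2), ¬ p w := by
        rintro w (hw | hw | hw)
        · rw [hw]; exact ha
        · exact pl2 w hw
        · exact pr2 w hw
      rcases le_total (rk l2) (rk r2) with h4 | h4
      · refine ⟨l1, node a l2 r2, Sub.left _ _ hl1, Sub.node a hl2 hr2, pl1, q, ?_⟩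
        rw [h3]; simp only [rk]; omega
      · refine ⟨r1, node a l2 r2, Sub.right _ _ hr1, Sub.node a hl2 hr2, pr1, q, ?_⟩
        rw [h3]; simp only [rk]; omega

theorem split_ht (p : α → Prop) (t : Tree α) : ∃ t1 t2, Sub t1 t ∧ Sub t2 t ∧
    (∀ w ∈ lab t1, p w) ∧ (∀ w ∈ lab t2, ¬ p w) ∧ ht t ≤ ht t1 + ht t2 := by
  induction t with
  | leaf => exact ⟨leaf, leaf, Sub.leaf _, Sub.leaf _, by simp [lab], by simp [lab], by simp [ht]⟩
  | node a l r ihl ihr =>
    obtain ⟨l1, l2, hl1, hl2, pl1, pl2, hl⟩ := ihl
    obtain ⟨r1, r2, hr1, hr2, pr1, pr2, hr⟩ := ihr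
    rcases le_total (ht r) (ht l) with h | h
    · by_cases ha : p a
      · refine ⟨node a l1 leaf, l2, Sub.node a hl1 (Sub.leaf _), Sub.left _ _ hl2, ?_, pl2, ?_⟩
        · rintro w (hw | hw | hw)
          · rw [hw]; exact ha
          · exact pl1 w hw
          · exact absurd hw (by simp [lab])
        · simp only [ht]; omega
      · refine ⟨l1, node a l2 leaf, Sub.left _ _ hl1, Sub.node a hl2 (Sub.leaf _), pl1, ?_, ?_⟩
        · rintro w (hw | hw | hw)
          · rw [hw]; exact ha
          · exact pl2 w hw
          · exact absurd hw (by simp [lab])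
        · simp only [ht]; omega
    · by_cases ha : p a
      · refine ⟨node a leaf r1, r2, Sub.node a (Sub.leaf _) hr1, Sub.right _ _ hr2, ?_, pr2, ?_⟩
        · rintro w (hw | hw | hw)
          · rw [hw]; exact ha
          · exact absurd hw (by simp [lab])
          · exact pr1 w hw
        · simp only [ht]; omega
      · refine ⟨r1, node a leaf r2, Sub.right _ _ hr1, Sub.node a (Sub.leaf _) hr2, pr1, ?_, ?_⟩
        · rintro w (hw | hw | hw)
          · rw [hw]; exact ha
          · exact absurd hw (by simp [lab])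
          · exact pr2 w hw
        · simp only [ht]; omega

variable (φ : α → α → Bool)

/-- largest size of a homogeneous subtree -/
noncomputable def U (c : Bool) (t : Tree α) : ℕ :=
  sSup {k | ∃ s, Sub s t ∧ Hom φ c s ∧ size s = k}

theorem bdd (c : Bool) (t : Tree α) : BddAbove {k | ∃ s, Sub s t ∧ Hom φ c s ∧ size s = k} := by
  refine ⟨size t, ?_⟩
  rintro k ⟨s, hs, _, rfl⟩
  exact size_le_of_sub hs

theorem exists_U (c : Bool) (t : Tree α) : ∃ s, Sub s t ∧ Hom φ c s ∧ size s = U φ c t := by
  have h : {k | ∃ s, Sub s t ∧ Hom φ c s ∧ size s = k}.Nonempty :=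
    ⟨1, leaf, Sub.leaf _, trivial, rfl⟩
  exact Nat.sSup_mem h (bdd φ c t)

theorem le_U {c : Bool} {s t : Tree α} (h : Sub s t) (hs : Hom φ c s) : size s ≤ U φ c t :=
  le_csSup (bdd φ c t) ⟨s, h, hs, rfl⟩

theorem U_mono {c : Bool} {s t : Tree α} (h : Sub s t) : U φ c s ≤ U φ c t := by
  obtain ⟨u, hu, hu', hu2⟩ := exists_U φ c s
  rw [← hu2]
  exact le_U φ (hu.trans h) hu'

theorem one_le_U (c : Bool) (t : Tree α) : 1 ≤ U φ c t := by
  have := le_U φ (c := c) (Sub.leaf t) trivial
  simpa [size] using this

theorem U_add_le {c : Bool} {s s' l r : Tree α} {a : α} (h : Sub s l) (h' : Sub s' r)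
    (hs : ∀ w ∈ lab s, φ w a = c) (hs' : ∀ w ∈ lab s', φ a w = c) :
    U φ c s + U φ c s' ≤ U φ c (node a l r) := by
  obtain ⟨u, hu, hu', hu2⟩ := exists_U φ c s
  obtain ⟨v, hv, hv', hv2⟩ := exists_U φ c s'
  rw [← hu2, ← hv2]
  have : size u + size v = size (node a u v) := rfl
  rw [this]
  apply le_U φ (Sub.node a (hu.trans h) (hv.trans h'))
  exact ⟨hu', hv', fun w hw => hs w (lab_of_sub hu hw), fun w hw => hs' w (lab_of_sub hv hw)⟩

theorem rk_le (t : Tree α) : rk t ≤ (U φ true t - 1) * (U φ false t - 1) := by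
  induction' hn : size t using Nat.strong_induction_on with n ih generalizing t
  cases t with
  | leaf => simp [rk]
  | node a l r =>
    have hl : Sub l (node a l r) := Sub.left _ _ (Sub.refl l)
    have hr : Sub r (node a l r) := Sub.right _ _ (Sub.refl r)
    have hsz : size (node a l r) = size l + size r := rfl
    have h1l := one_le_size l
    have h1r := one_le_size r
    set A := U φ true (node a l r) with hA
    set B := U φ false (node a l r) with hB
    have hmono : ∀ s, Sub s (node a l r) → size s < n → rk s ≤ (U φ true s - 1) * (U φ false s - 1) :=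
      fun s _ h2 => ih (size s) h2 s rfl
    have hmono2 : ∀ s, Sub s (node a l r) → size s < n → rk s ≤ (A - 1) * (B - 1) := by
      intro s h1 h2
      refine (hmono s h1 h2).trans (Nat.mul_le_mul ?_ ?_)
      · have := U_mono φ (c := true) h1; omega
      · have := U_mono φ (c := false) h1; omega
    by_cases h1 : rk (node a l r) ≤ rk l
    · exact h1.trans (hmono2 l hl (by omega))
    by_cases h2 : rk (node a l r) ≤ rk r
    · exact h2.trans (hmono2 r hr (by omega))
    have h3 : rk (node a l r) = 1 + min (rk l) (rk r) := by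
      simp only [rk] at h1 h2 ⊢
      omega
    obtain ⟨P, P', hP, hP', pP, pP', hPr⟩ := split_rk (fun w => φ w a = true) l
    obtain ⟨Q, Q', hQ, hQ', pQ, pQ', hQr⟩ := split_rk (fun w => φ a w = true) r
    have pP'' : ∀ w ∈ lab P', φ w a = false := fun w hw => by simpa using pP' w hw
    have pQ'' : ∀ w ∈ lab Q', φ a w = false := fun w hw => by simpa using pQ' w hw
    have e1 := U_add_le φ (a := a) hP hQ pP pQ
    have e2 := U_add_le φ (a := a) hP' hQ' pP'' pQ''
    rw [← hA] at e1
    rw [← hB] at e2
    have sP := size_le_of_sub hP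
    have sP' := size_le_of_sub hP'
    have sQ := size_le_of_sub hQ
    have sQ' := size_le_of_sub hQ'
    have f1 := hmono P (hP.trans hl) (by omega)
    have f2 := hmono P' (hP'.trans hl) (by omega)
    have f3 := hmono Q (hQ.trans hr) (by omega)
    have f4 := hmono Q' (hQ'.trans hr) (by omega)
    have g1 := U_mono φ (c := false) (hP.trans hl)
    have g2 := U_mono φ (c := true) (hP'.trans hl)
    have g3 := U_mono φ (c := false) (hQ.trans hr)
    have g4 := U_mono φ (c := true) (hQ'.trans hr)
    rw [← hB] at g1 g3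
    rw [← hA] at g2 g4
    have o1 := one_le_U φ true P
    have o2 := one_le_U φ false P'
    have o3 := one_le_U φ true Q
    have o4 := one_le_U φ false Q'
    have f1' : rk P ≤ (U φ true P - 1) * (B - 1) := f1.trans (Nat.mul_le_mul_left _ (by omega))
    have f3' : rk Q ≤ (U φ true Q - 1) * (B - 1) := f3.trans (Nat.mul_le_mul_left _ (by omega))
    have f2' : rk P' ≤ (A - 1) * (U φ false P' - 1) := f2.trans (Nat.mul_le_mul_right _ (by omega))
    have f4' : rk Q' ≤ (A - 1) * (U φ false Q' - 1) := f4.trans (Nat.mul_le_mul_right _ (by omega))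
    have k1 : rk P + rk Q ≤ (A - 2) * (B - 1) := by
      calc rk P + rk Q ≤ (U φ true P - 1) * (B - 1) + (U φ true Q - 1) * (B - 1) :=
            Nat.add_le_add f1' f3'
        _ = ((U φ true P - 1) + (U φ true Q - 1)) * (B - 1) := by rw [add_mul]
        _ ≤ (A - 2) * (B - 1) := Nat.mul_le_mul_right _ (by omega)
    have k2 : rk P' + rk Q' ≤ (A - 1) * (B - 2) := by
      calc rk P' + rk Q' ≤ (A - 1) * (U φ false P' - 1) + (A - 1) * (U φ false Q' - 1) :=
            Nat.add_le_add f2' f4'
        _ = (A - 1) * ((U φ false P' - 1) + (U φ false Q' - 1)) := by rw [mul_add]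
        _ ≤ (A - 1) * (B - 2) := Nat.mul_le_mul_left _ (by omega)
    have hA2 : 2 ≤ A := by omega
    have hB2 : 2 ≤ B := by omega
    obtain ⟨x, hx⟩ : ∃ x, A = x + 2 := ⟨A - 2, by omega⟩
    obtain ⟨y, hy⟩ : ∃ y, B = y + 2 := ⟨B - 2, by omega⟩
    have k1' : rk P + rk Q ≤ x * (y + 1) := by rw [hx, hy] at k1; simpa using k1
    have k2' : rk P' + rk Q' ≤ (x + 1) * y := by rw [hx, hy] at k2; simpa using k2
    rw [hx, hy, h3]
    have e3 : (x + 2 - 1) * (y + 2 - 1) = x * y + x + y + 1 := by
      simp only [Nat.add_sub_cancel, show x + 2 - 1 = x + 1 by omega, show y + 2 - 1 = y + 1 by omega]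
      ring
    rw [e3]
    have k1'' : x * (y + 1) = x * y + x := by ring
    have k2'' : (x + 1) * y = x * y + y := by ring
    omega

theorem ht_le (t : Tree α) : ht t + 1 ≤ 2 ^ (U φ true t + U φ false t - 2) := by
  induction' hn : size t using Nat.strong_induction_on with n ih generalizing t
  cases t with
  | leaf => simp only [ht]; exact Nat.one_le_two_pow
  | node a l r =>
    have hl : Sub l (node a l r) := Sub.left _ _ (Sub.refl l)
    have hr : Sub r (node a l r) := Sub.right _ _ (Sub.refl r)
    have hsz : size (node a l r) = size l + size r := rfl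
    have h1l := one_le_size l
    have h1r := one_le_size r
    set A := U φ true (node a l r) with hA
    set B := U φ false (node a l r) with hB
    -- it suffices to find a proper subtree with one of the numbers decreased
    suffices hkey : ∃ s, Sub s (node a l r) ∧ size s < n ∧ ht (node a l r) ≤ 2 * ht s + 1 ∧
        U φ true s + U φ false s + 1 ≤ A + B by
      obtain ⟨s, h1, h2, h3, h4⟩ := hkey
      have h5 := ih (size s) h2 s rfl
      have o1 := one_le_U φ true s
      have o2 := one_le_U φ false s
      have h6 : 2 ^ (U φ true s + U φ false s - 2) * 2 ≤ 2 ^ (A + B - 2) := by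
        rw [← pow_succ]
        exact Nat.pow_le_pow_right (by norm_num) (by omega)
      omega
    have hlf : ∀ w ∈ lab (leaf : Tree α), φ a w = true := by simp [lab]
    have hlf' : ∀ w ∈ lab (leaf : Tree α), φ a w = false := by simp [lab]
    have hlf2 : ∀ w ∈ lab (leaf : Tree α), φ w a = true := by simp [lab]
    have hlf2' : ∀ w ∈ lab (leaf : Tree α), φ w a = false := by simp [lab]
    have u1 := one_le_U φ true (leaf : Tree α)
    have u2 := one_le_U φ false (leaf : Tree α)
    rcases le_total (ht r) (ht l) with h | h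
    · obtain ⟨P, P', hP, hP', pP, pP', hPr⟩ := split_ht (fun w => φ w a = true) l
      have pP'' : ∀ w ∈ lab P', φ w a = false := fun w hw => by simpa using pP' w hw
      have sP := size_le_of_sub hP
      have sP' := size_le_of_sub hP'
      rcases le_total (ht P') (ht P) with h2 | h2
      · have e1 := U_add_le φ (a := a) hP (Sub.leaf r) pP hlf
        have g1 := U_mono φ (c := false) (hP.trans hl)
        refine ⟨P, hP.trans hl, by omega, ?_, by omega⟩
        simp only [ht]; omega
      · have e1 := U_add_le φ (a := a) hP' (Sub.leaf r) pP'' hlf'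
        have g1 := U_mono φ (c := true) (hP'.trans hl)
        refine ⟨P', hP'.trans hl, by omega, ?_, by omega⟩
        simp only [ht]; omega
    · obtain ⟨P, P', hP, hP', pP, pP', hPr⟩ := split_ht (fun w => φ a w = true) r
      have pP'' : ∀ w ∈ lab P', φ a w = false := fun w hw => by simpa using pP' w hw
      have sP := size_le_of_sub hP
      have sP' := size_le_of_sub hP'
      rcases le_total (ht P') (ht P) with h2 | h2
      · have e1 := U_add_le φ (a := a) (Sub.leaf l) hP hlf2 pP
        have g1 := U_mono φ (c := false) (hP.trans hr)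
        refine ⟨P, hP.trans hr, by omega, ?_, by omega⟩
        simp only [ht]; omega
      · have e1 := U_add_le φ (a := a) (Sub.leaf l) hP' hlf2' pP''
        have g1 := U_mono φ (c := true) (hP'.trans hr)
        refine ⟨P', hP'.trans hr, by omega, ?_, by omega⟩
        simp only [ht]; omega

end Tree

end Pool.Agent.H526R2.Delta
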