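import Mathlib
import Pool.Agent.H526R2.Delta.Tree

/-! The number of leaves in terms of height and Strahler number; trees of `δ`-functions. -/

namespace Pool.Agent.H526R2.Delta

open Finset

/-- partial sums of a row of Pascal's triangle -/
def binSum (h k : ℕ) : ℕ := ∑ i ∈ range (k + 1), h.choose i

theorem binSum_zero (h : ℕ) : binSum h 0 = 1 := by simp [binSum]

theorem binSum_zero_left (k : ℕ) : binSum 0 k = 1 := by
  unfold binSum
  rw [sum_range_succ']
  simp

theorem binSum_succ (h k : ℕ) : binSum (h + 1) (k + 1) = binSum h (k + 1) + binSum h k := by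
  unfold binSum
  rw [sum_range_succ' (fun i => (h + 1).choose i) (k + 1), sum_range_succ' (fun i => h.choose i) (k + 1)]
  simp only [Nat.choose_succ_succ, sum_add_distrib, Nat.choose_zero_right]
  ring

theorem binSum_mono_right (h : ℕ) {k k' : ℕ} (hk : k ≤ k') : binSum h k ≤ binSum h k' := by
  unfold binSum
  apply sum_le_sum_of_subset
  intro i hi
  rw [mem_range] at hi ⊢
  omega

theorem binSum_mono_left {h h' : ℕ} (k : ℕ) (hh : h ≤ h') : binSum h k ≤ binSum h' k := by
  unfold binSum
  exact sum_le_sum (fun i _ => Nat.choose_le_choose i hh)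

theorem binSum_le_pow (h k : ℕ) : binSum h k ≤ (h + 1) ^ k := by
  induction h generalizing k with
  | zero => rw [binSum_zero_left]; simp
  | succ h ih =>
    cases k with
    | zero => rw [binSum_zero]; simp
    | succ k =>
      rw [binSum_succ]
      calc binSum h (k + 1) + binSum h k ≤ (h + 1) ^ (k + 1) + (h + 1) ^ k :=
            Nat.add_le_add (ih _) (ih _)
        _ = (h + 1) ^ k * (h + 1 + 1) := by ring
        _ ≤ (h + 1 + 1) ^ k * (h + 1 + 1) :=
            Nat.mul_le_mul_right _ (Nat.pow_le_pow_left (by omega) _)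
        _ = (h + 1 + 1) ^ (k + 1) := by ring

theorem binSum_lt (m : ℕ) (hm : 0 < m) : binSum m (m - 1) < 2 ^ m := by
  have h := Nat.sum_range_choose m
  rw [sum_range_succ] at h
  unfold binSum
  rw [Nat.sub_add_cancel hm]
  simp at h
  omega

namespace Tree

theorem size_le_binSum {α : Type} (t : Tree α) : size t ≤ binSum (ht t) (rk t) := by
  induction t with
  | leaf => simp [size, ht, rk, binSum]
  | node a l r ihl ihr =>
    simp only [size]
    set h := max (ht l) (ht r) with hh
    have e : ht (node a l r) = h + 1 := by simp only [ht]; omega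
    rw [e]
    have hl : size l ≤ binSum h (rk l) := ihl.trans (binSum_mono_left _ (le_max_left _ _))
    have hr : size r ≤ binSum h (rk r) := ihr.trans (binSum_mono_left _ (le_max_right _ _))
    rcases lt_trichotomy (rk l) (rk r) with h1 | h1 | h1
    · have h2 : rk r ≤ rk (node a l r) := by simp only [rk]; omega
      refine le_trans ?_ (binSum_mono_right _ h2)
      obtain ⟨k, hk⟩ : ∃ k, rk r = k + 1 := ⟨rk r - 1, by omega⟩
      rw [hk, binSum_succ]
      rw [hk] at hr
      have := hl.trans (binSum_mono_right h (show rk l ≤ k by omega))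
      omega
    · have h2 : rk r + 1 ≤ rk (node a l r) := by simp only [rk]; omega
      refine le_trans ?_ (binSum_mono_right _ h2)
      rw [binSum_succ]
      rw [h1] at hl
      have := hr.trans (binSum_mono_right h (show rk r ≤ rk r + 1 by omega))
      omega
    · have h2 : rk l ≤ rk (node a l r) := by simp only [rk]; omega
      refine le_trans ?_ (binSum_mono_right _ h2)
      obtain ⟨k, hk⟩ : ∃ k, rk l = k + 1 := ⟨rk l - 1, by omega⟩
      rw [hk, binSum_succ]
      rw [hk] at hl
      have := hr.trans (binSum_mono_right h (show rk r ≤ k by omega))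
      omega

end Tree

/-- `δ` is a `δ`-function on the points of `X`: for `x < y < z` the values `δ x y`, `δ y z` are
different and the larger one is `δ x z`. -/
def IsDelta (X : Set ℕ) (δ : ℕ → ℕ → ℕ) : Prop :=
  ∀ x ∈ X, ∀ y ∈ X, ∀ z ∈ X, x < y → y < z → δ x y ≠ δ y z ∧ δ x z = max (δ x y) (δ y z)

/-- All triples of `S` have colour `c` in the colouring `(x, y, z) ↦ φ (δ x y) (δ y z)`. -/
def Mono (δ : ℕ → ℕ → ℕ) (φ : ℕ → ℕ → Bool) (c : Bool) (S : Set ℕ) : Prop :=
  ∀ x ∈ S, ∀ y ∈ S, ∀ z ∈ S, x < y → y < z → φ (δ x y) (δ y z) = c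

/-- The subtrees of `t` are realised by subsets of `X`. -/
def Real (X : Finset ℕ) (δ : ℕ → ℕ → ℕ) (t : Tree ℕ) : Prop :=
  ∀ s, Tree.Sub s t → ∃ Y ⊆ X, Y.card = s.size ∧ (∀ x ∈ Y, ∀ y ∈ Y, x < y → δ x y ∈ s.lab) ∧
    ∀ φ c, Tree.Hom φ c s → Mono δ φ c Y

theorem exists_tree (X : Finset ℕ) (hX : X.Nonempty) (δ : ℕ → ℕ → ℕ) (hδ : IsDelta X δ) :
    ∃ t : Tree ℕ, t.size = X.card ∧ Real X δ t ∧
      ∀ m, (∀ x ∈ X, ∀ y ∈ X, x < y → δ x y < m) → t.ht ≤ m := by
  induction' hn : X.card using Nat.strong_induction_on with n ih generalizing X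
  by_cases h1 : X.card = 1
  · refine ⟨Tree.leaf, by simp [Tree.size, ← hn, h1], ?_, fun m _ => Nat.zero_le _⟩
    intro s hs
    cases hs
    refine ⟨X, subset_rfl, by simp [Tree.size, h1], ?_, ?_⟩
    · obtain ⟨a, rfl⟩ := card_eq_one.1 h1
      intro x hx y hy hxy
      simp only [mem_singleton] at hx hy
      omega
    · obtain ⟨a, rfl⟩ := card_eq_one.1 h1
      intro φ c _ x hx y hy z _ hxy
      simp only [coe_singleton, Set.mem_singleton_iff] at hx hy
      omega
  · have hX1 : 1 < X.card := by
      have := hX.card_pos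
      omega
    set p := X.min' hX with hp
    set q := X.max' hX with hq
    have hpX : p ∈ X := min'_mem _ _
    have hqX : q ∈ X := max'_mem _ _
    have hpq : p < q := min'_lt_max'_of_card _ hX1
    have hmin : ∀ x ∈ X, p ≤ x := fun x hx => min'_le _ _ hx
    have hmax : ∀ x ∈ X, x ≤ q := fun x hx => le_max' _ _ hx
    set a := δ p q with ha
    -- all values are at most a
    have hpa : ∀ x ∈ X, p < x → δ p x ≤ a := by
      intro x hx h
      rcases (hmax x hx).lt_or_eq with h2 | h2
      · have := (hδ p hpX x hx q hqX h h2).2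
        rw [ha, this]
        exact le_max_left _ _
      · rw [h2]
    have hall : ∀ x ∈ X, ∀ y ∈ X, x < y → δ x y ≤ a := by
      intro x hx y hy hxy
      rcases (hmin x hx).lt_or_eq with h2 | h2
      · have := (hδ p hpX x hx y hy h2 hxy).2
        have h3 := hpa y hy (h2.trans hxy)
        rw [this] at h3
        exact (le_max_right _ _).trans h3
      · rw [← h2]
        exact hpa y hy (h2 ▸ hxy)
    set L := X.filter (fun x => x = p ∨ δ p x ≠ a) with hL
    set R := X.filter (fun x => ¬ (x = p ∨ δ p x ≠ a)) with hR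
    have hLX : L ⊆ X := filter_subset _ _
    have hRX : R ⊆ X := filter_subset _ _
    have hcard : L.card + R.card = X.card := card_filter_add_card_filter_not _
    have hpL : p ∈ L := by simp [hL, hpX]
    have hqR : q ∈ R := by
      simp only [hR, mem_filter, not_or, not_not]
      exact ⟨hqX, hpq.ne', ha.symm⟩
    have hLne : L.Nonempty := ⟨p, hpL⟩
    have hRne : R.Nonempty := ⟨q, hqR⟩
    have hRa : ∀ x ∈ R, p < x ∧ δ p x = a := by
      intro x hx
      simp only [hR, mem_filter, not_or, not_not] at hx
      exact ⟨lt_of_le_of_ne (hmin x hx.1) (Ne.symm hx.2.1), hx.2.2⟩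
    have hLa : ∀ x ∈ L, p < x → δ p x < a := by
      intro x hx h
      simp only [hL, mem_filter] at hx
      rcases hx.2 with h2 | h2
      · omega
      · exact lt_of_le_of_ne (hpa x hx.1 h) h2
    -- L is to the left of R
    have hLR : ∀ x ∈ L, ∀ y ∈ R, x < y ∧ δ x y = a := by
      intro x hx y hy
      obtain ⟨h2, h3⟩ := hRa y hy
      rcases (hmin x (hLX hx)).lt_or_eq with h4 | h4
      · have h5 := hLa x hx h4
        have hxy : x < y := by
          by_contra h
          rcases (not_lt.1 h).lt_or_eq with h6 | h6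
          · have h7 := (hδ p hpX y (hRX hy) x (hLX hx) h2 h6).2
            rw [h7, h3] at h5
            exact absurd h5 (not_lt.2 (le_max_left _ _))
          · rw [← h6, h3] at h5
            omega
        refine ⟨hxy, ?_⟩
        have h7 := (hδ p hpX x (hLX hx) y (hRX hy) h4 hxy).2
        rw [h3] at h7
        rcases le_total (δ p x) (δ x y) with h8 | h8
        · rw [max_eq_right h8] at h7; exact h7.symm
        · rw [max_eq_left h8] at h7; omega
      · rw [← h4]
        exact ⟨h2, h3⟩
    -- values inside L and R are smaller than a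
    have hLL : ∀ x ∈ L, ∀ y ∈ L, x < y → δ x y < a := by
      intro x hx y hy hxy
      rcases (hmin x (hLX hx)).lt_or_eq with h4 | h4
      · have h5 := hLa y hy (h4.trans hxy)
        have h7 := (hδ p hpX x (hLX hx) y (hLX hy) h4 hxy).2
        rw [h7] at h5
        exact (le_max_right _ _).trans_lt h5
      · rw [← h4]
        exact hLa y hy (h4 ▸ hxy)
    have hRR : ∀ x ∈ R, ∀ y ∈ R, x < y → δ x y < a := by
      intro x hx y hy hxy
      obtain ⟨h2, h3⟩ := hRa x hx
      have h4 := (hδ p hpX x (hRX hx) y (hRX hy) h2 hxy).1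
      rw [h3] at h4
      exact lt_of_le_of_ne (hall x (hRX hx) y (hRX hy) hxy) (Ne.symm h4)
    have hδL : IsDelta L δ := fun x hx y hy z hz => hδ x (hLX hx) y (hLX hy) z (hLX hz)
    have hδR : IsDelta R δ := fun x hx y hy z hz => hδ x (hRX hx) y (hRX hy) z (hRX hz)
    have hLc : 0 < L.card := hLne.card_pos
    have hRc : 0 < R.card := hRne.card_pos
    obtain ⟨tl, tl1, tl2, tl3⟩ := ih L.card (by omega) L hLne hδL rfl
    obtain ⟨tr, tr1, tr2, tr3⟩ := ih R.card (by omega) R hRne hδR rfl
    refine ⟨Tree.node a tl tr, ?_, ?_, ?_⟩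
    · simp only [Tree.size]; omega
    · intro s hs
      cases hs with
      | leaf =>
        refine ⟨{p}, by simpa using hpX, by simp [Tree.size], ?_, ?_⟩
        · intro x hx y hy hxy
          simp only [mem_singleton] at hx hy
          omega
        · intro φ c _ x hx y hy z _ hxy
          simp only [coe_singleton, Set.mem_singleton_iff] at hx hy
          omega
      | left _ _ h =>
        obtain ⟨Y, hY, h2, h3, h4⟩ := tl2 s h
        exact ⟨Y, hY.trans hLX, h2, h3, h4⟩
      | right _ _ h =>
        obtain ⟨Y, hY, h2, h3, h4⟩ := tr2 s h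
        exact ⟨Y, hY.trans hRX, h2, h3, h4⟩
      | node _ h h' =>
        rename_i s1 s2
        obtain ⟨Y, hY, h2, h3, h4⟩ := tl2 _ h
        obtain ⟨Z, hZ, k2, k3, k4⟩ := tr2 _ h'
        have hdisj : Disjoint Y Z := by
          rw [disjoint_left]
          intro x hx hx'
          exact absurd (hLR x (hY hx) x (hZ hx')).1 (lt_irrefl _)
        refine ⟨Y ∪ Z, union_subset (hY.trans hLX) (hZ.trans hRX), ?_, ?_, ?_⟩
        · rw [card_union_of_disjoint hdisj, h2, k2]; rfl
        · intro x hx y hy hxy
          rcases mem_union.1 hx with hx | hx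
          · rcases mem_union.1 hy with hy | hy
            · exact Or.inr (Or.inl (h3 x hx y hy hxy))
            · exact Or.inl (hLR x (hY hx) y (hZ hy)).2
          · rcases mem_union.1 hy with hy | hy
            · have := (hLR y (hY hy) x (hZ hx)).1
              omega
            · exact Or.inr (Or.inr (k3 x hx y hy hxy))
        · rintro φ c ⟨e1, e2, e3, e4⟩ x hx y hy z hz hxy hyz
          rw [coe_union] at hx hy hz
          have m1 := h4 φ c e1
          have m2 := k4 φ c e2
          rcases hx with hx | hx
          · rcases hy with hy | hy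
            · rcases hz with hz | hz
              · exact m1 x hx y hy z hz hxy hyz
              · rw [(hLR y (hY hy) z (hZ hz)).2]
                exact e3 _ (h3 x hx y hy hxy)
            · rcases hz with hz | hz
              · have := (hLR z (hY hz) y (hZ hy)).1
                omega
              · rw [(hLR x (hY hx) y (hZ hy)).2]
                exact e4 _ (k3 y hy z hz hyz)
          · rcases hy with hy | hy
            · have := (hLR y (hY hy) x (hZ hx)).1
              omega
            · rcases hz with hz | hz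
              · have := (hLR z (hY hz) y (hZ hy)).1
                omega
              · exact m2 x hx y hy z hz hxy hyz
    · intro m hm
      have ham : a < m := hm p hpX q hqX hpq
      have e1 := tl3 a hLL
      have e2 := tr3 a hRR
      simp only [Tree.ht]
      omega

end Pool.Agent.H526R2.Delta
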