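import Mathlib
import Pool.Agent.H526R2.Delta.Size

/-! Two-colourings of triples that depend only on the values of a `δ`-function. -/

namespace Pool.Agent.H526R2.Delta

open Finset

theorem exists_mono (X : Finset ℕ) (hX : X.Nonempty) (δ : ℕ → ℕ → ℕ) (hδ : IsDelta X δ)
    (φ : ℕ → ℕ → Bool) : ∃ S ⊆ X, ∃ T ⊆ X, 1 ≤ S.card ∧ 1 ≤ T.card ∧
      Mono δ φ true S ∧ Mono δ φ false T ∧
      X.card ≤ 2 ^ ((S.card + T.card - 2) * ((S.card - 1) * (T.card - 1))) ∧
      ∀ m, (∀ x ∈ X, ∀ y ∈ X, x < y → δ x y < m) →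
        X.card ≤ binSum m ((S.card - 1) * (T.card - 1)) := by
  obtain ⟨t, h1, h2, h3⟩ := exists_tree X hX δ hδ
  obtain ⟨s, hs, hs1, hs2⟩ := Tree.exists_U φ true t
  obtain ⟨u, hu, hu1, hu2⟩ := Tree.exists_U φ false t
  obtain ⟨S, hS, a1, _, a2⟩ := h2 s hs
  obtain ⟨T, hT, b1, _, b2⟩ := h2 u hu
  have hrk := Tree.rk_le φ t
  have hht := Tree.ht_le φ t
  have hsz := Tree.size_le_binSum t
  rw [← hs2, ← a1, ← hu2, ← b1] at hrk hht
  refine ⟨S, hS, T, hT, ?_, ?_, a2 φ true hs1, b2 φ false hu1, ?_, ?_⟩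
  · rw [a1]; exact Tree.one_le_size s
  · rw [b1]; exact Tree.one_le_size u
  · rw [← h1]
    calc t.size ≤ binSum t.ht t.rk := hsz
      _ ≤ (t.ht + 1) ^ t.rk := binSum_le_pow _ _
      _ ≤ (2 ^ (S.card + T.card - 2)) ^ t.rk := Nat.pow_le_pow_left hht _
      _ ≤ (2 ^ (S.card + T.card - 2)) ^ ((S.card - 1) * (T.card - 1)) :=
          Nat.pow_le_pow_right (by positivity) hrk
      _ = _ := by rw [← pow_mul]
  · intro m hm
    rw [← h1]
    calc t.size ≤ binSum t.ht t.rk := hsz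
      _ ≤ binSum m t.rk := binSum_mono_left _ (h3 m hm)
      _ ≤ _ := binSum_mono_right _ hrk

/-- The position of the highest binary digit in which `x` and `y` differ. -/
def hd (x y : ℕ) : ℕ := Nat.findGreatest (fun i => x / 2 ^ i ≠ y / 2 ^ i) (max x y)

theorem hd_spec {x y : ℕ} (h : x < y) (i : ℕ) : i ≤ hd x y ↔ x / 2 ^ i ≠ y / 2 ^ i := by
  have h0 : x / 2 ^ 0 ≠ y / 2 ^ 0 := by simpa using h.ne
  have hg : x / 2 ^ (hd x y) ≠ y / 2 ^ (hd x y) :=
    Nat.findGreatest_spec (P := fun i => x / 2 ^ i ≠ y / 2 ^ i) (Nat.zero_le (max x y)) h0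
  constructor
  · intro hi heq
    apply hg
    obtain ⟨k, hk⟩ := Nat.exists_eq_add_of_le hi
    rw [hk, pow_add, ← Nat.div_div_eq_div_mul, ← Nat.div_div_eq_div_mul, heq]
  · intro hne
    refine Nat.le_findGreatest (P := fun i => x / 2 ^ i ≠ y / 2 ^ i) ?_ hne
    by_contra hlt
    push Not at hlt
    apply hne
    have e : ∀ a, a ≤ max x y → a / 2 ^ i = 0 := by
      intro a ha
      apply Nat.div_eq_of_lt
      exact lt_of_le_of_lt ha (hlt.trans Nat.lt_two_pow_self)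
    rw [e x (le_max_left _ _), e y (le_max_right _ _)]

theorem isDelta_hd (X : Set ℕ) : IsDelta X hd := by
  intro x _ y _ z _ hxy hyz
  have h1 := hd_spec hxy
  have h2 := hd_spec hyz
  have h3 := hd_spec (hxy.trans hyz)
  have key : ∀ i, i ≤ hd x z ↔ (i ≤ hd x y ∨ i ≤ hd y z) := by
    intro i
    rw [h1, h2, h3]
    have e1 : x / 2 ^ i ≤ y / 2 ^ i := Nat.div_le_div_right hxy.le
    have e2 : y / 2 ^ i ≤ z / 2 ^ i := Nat.div_le_div_right hyz.le
    omega
  constructor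
  · intro heq
    set i := hd x y with hi
    have a1 : x / 2 ^ i ≠ y / 2 ^ i := (h1 i).1 le_rfl
    have a2 : y / 2 ^ i ≠ z / 2 ^ i := (h2 i).1 (by rw [heq])
    have a3 : x / 2 ^ (i + 1) = y / 2 ^ (i + 1) := by
      by_contra h
      have := (h1 (i + 1)).2 h
      omega
    have a4 : y / 2 ^ (i + 1) = z / 2 ^ (i + 1) := by
      by_contra h
      have := (h2 (i + 1)).2 h
      omega
    have e1 : x / 2 ^ i ≤ y / 2 ^ i := Nat.div_le_div_right hxy.le
    have e2 : y / 2 ^ i ≤ z / 2 ^ i := Nat.div_le_div_right hyz.le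
    rw [pow_succ, ← Nat.div_div_eq_div_mul, ← Nat.div_div_eq_div_mul] at a3 a4
    omega
  · apply le_antisymm
    · have := (key (hd x z)).1 le_rfl
      omega
    · exact max_le ((key _).2 (Or.inl le_rfl)) ((key _).2 (Or.inr le_rfl))

theorem hd_lt {m x y : ℕ} (hxy : x < y) (hy : y < 2 ^ m) : hd x y < m := by
  by_contra h
  push Not at h
  have := (hd_spec hxy m).1 h
  apply this
  rw [Nat.div_eq_of_lt hy, Nat.div_eq_of_lt (hxy.trans hy)]

theorem exists_mono_hd (m : ℕ) (φ : ℕ → ℕ → Bool) : ∃ S T : Finset ℕ,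
    (∀ x ∈ S, x < 2 ^ m) ∧ (∀ x ∈ T, x < 2 ^ m) ∧
      Mono hd φ true S ∧ Mono hd φ false T ∧ m ≤ (S.card - 1) * (T.card - 1) := by
  have hne : (range (2 ^ m)).Nonempty := by
    rw [nonempty_range_iff]
    positivity
  obtain ⟨S, hS, T, hT, _, _, hS2, hT2, _, h⟩ := exists_mono (range (2 ^ m)) hne hd (isDelta_hd _) φ
  refine ⟨S, T, fun x hx => by simpa using hS hx, fun x hx => by simpa using hT hx, hS2, hT2, ?_⟩
  have h2 := h m (fun x _ y hy hxy => hd_lt hxy (by simpa using hy))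
  rw [card_range] at h2
  by_contra hlt
  push Not at hlt
  have h3 : binSum m ((S.card - 1) * (T.card - 1)) ≤ binSum m (m - 1) :=
    binSum_mono_right _ (by omega)
  have h4 := binSum_lt m (by omega)
  omega

end Pool.Agent.H526R2.Delta
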